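import Pool.Agent.MP_d3ab35_lc.H50.Defs

/-!
Numerical estimates.
-/

set_option autoImplicit false

namespace Pool.Agent.MP_d3ab35_lc.H50

open Polynomial

/-- the bound on the nondeterminism -/
def ff (n : ℕ) : ℕ := 2 ^ n.size.sqrt

/-- fourth root of the size -/
def rr (m : ℕ) : ℕ := m.size.sqrt.sqrt

/-- the block parameter -/
def FF (m : ℕ) : ℕ := 2 ^ (rr m + 66)

lemma lt_pow_four (k : ℕ) : k < (k.sqrt.sqrt + 1) ^ 4 := by
  have h1 := Nat.lt_succ_sqrt k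
  have h2 := Nat.lt_succ_sqrt k.sqrt
  simp only [Nat.succ_eq_add_one] at h1 h2
  calc k < (k.sqrt + 1) * (k.sqrt + 1) := h1
    _ ≤ ((k.sqrt.sqrt + 1) * (k.sqrt.sqrt + 1)) * ((k.sqrt.sqrt + 1) * (k.sqrt.sqrt + 1)) :=
        Nat.mul_le_mul h2 h2
    _ = _ := by ring

lemma pow_four_le (k : ℕ) : k.sqrt.sqrt ^ 4 ≤ k := by
  have h1 := Nat.sqrt_le k
  have h2 := Nat.sqrt_le k.sqrt
  calc k.sqrt.sqrt ^ 4 = (k.sqrt.sqrt * k.sqrt.sqrt) * (k.sqrt.sqrt * k.sqrt.sqrt) := by ring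
    _ ≤ k.sqrt * k.sqrt := Nat.mul_le_mul h2 h2
    _ ≤ k := h1

lemma pow_sixteen (r : ℕ) : (r + 2) ^ 16 ≤ 2 ^ (r + 66) := by
  have h1 : (r + 2) / 16 < 2 ^ ((r + 2) / 16) := Nat.lt_two_pow_self
  have h2 : r + 2 ≤ 2 ^ ((r + 2) / 16 + 4) := by rw [pow_add]; omega
  calc (r + 2) ^ 16 ≤ (2 ^ ((r + 2) / 16 + 4)) ^ 16 := Nat.pow_le_pow_left h2 16
    _ = 2 ^ (((r + 2) / 16 + 4) * 16) := by rw [← pow_mul]
    _ ≤ _ := Nat.pow_le_pow_right (by norm_num) (by omega)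

lemma rr_mono {m n : ℕ} (h : m ≤ n) : rr m ≤ rr n :=
  Nat.sqrt_le_sqrt (Nat.sqrt_le_sqrt (Nat.size_le_size h))

lemma size_bound (n : ℕ) : (n.size + 2) ^ 4 ≤ FF n := by
  have h1 := lt_pow_four n.size
  have h2 : (rr n + 1) ^ 4 + 1 ≤ (rr n + 2) ^ 4 :=
    Nat.pow_lt_pow_left (by omega) (by norm_num)
  calc (n.size + 2) ^ 4 ≤ ((rr n + 2) ^ 4) ^ 4 := Nat.pow_le_pow_left (by unfold rr at *; omega) 4
    _ = (rr n + 2) ^ 16 := by rw [← pow_mul]
    _ ≤ _ := pow_sixteen _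

lemma two_mul_lt (m : ℕ) : 2 * m < 2 ^ (m.size + 1) := by
  have := Nat.lt_size_self m
  rw [pow_succ]; omega

lemma H1 (m : ℕ) : 2 * m < 2 ^ FF m := by
  refine (two_mul_lt m).trans_le (Nat.pow_le_pow_right (by norm_num) ?_)
  have h1 := size_bound m
  have h2 : m.size + 2 ≤ (m.size + 2) ^ 4 := Nat.le_self_pow (by norm_num) _
  omega

lemma H2 (n m m' : ℕ) (h : 2 ^ FF m ≤ 8 ^ (n + 1)) (hn : n ≤ m') : 2 * m ≤ 2 ^ FF m' := by
  have h1 : FF m ≤ 3 * (n + 1) := by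
    rw [show (8 : ℕ) = 2 ^ 3 by norm_num, ← pow_mul] at h
    exact (Nat.pow_le_pow_iff_right (by norm_num)).1 h
  have h2 : 2 ^ (rr m + 66) < 2 ^ (n.size + 2) := by
    have := Nat.lt_size_self n
    have h3 : 0 < 2 ^ n.size := by positivity
    rw [pow_add 2 n.size]
    unfold FF at h1
    omega
  have h3 : rr m + 66 < n.size + 2 := (Nat.pow_lt_pow_iff_right (by norm_num)).1 h2
  have h4 := lt_pow_four m.size
  have h5 : (rr m + 1) ^ 4 ≤ (n.size + 2) ^ 4 := Nat.pow_le_pow_left (by omega) 4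
  have h6 := size_bound n
  have h7 : FF n ≤ FF m' := Nat.pow_le_pow_right (by norm_num) (by have := rr_mono hn; omega)
  refine (two_mul_lt m).le.trans (Nat.pow_le_pow_right (by norm_num) ?_)
  unfold rr at h5
  omega

lemma poly_le (p : ℕ[X]) : ∃ K, ∀ n, p.eval n ≤ (n + 2) ^ K := by
  induction p using Polynomial.induction_on' with
  | add p q hp hq =>
    obtain ⟨K, hK⟩ := hp
    obtain ⟨K', hK'⟩ := hq
    refine ⟨K + K' + 1, fun n => ?_⟩
    have h1 : (n + 2) ^ K ≤ (n + 2) ^ (K + K') := Nat.pow_le_pow_right (by omega) (by omega)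
    have h2 : (n + 2) ^ K' ≤ (n + 2) ^ (K + K') := Nat.pow_le_pow_right (by omega) (by omega)
    have := hK n
    have := hK' n
    rw [eval_add, pow_succ]
    nlinarith
  | monomial k a =>
    refine ⟨a + k, fun n => ?_⟩
    rw [eval_monomial, pow_add]
    refine Nat.mul_le_mul ?_ (Nat.pow_le_pow_left (by omega) k)
    exact (Nat.lt_two_pow_self (n := a)).le.trans (Nat.pow_le_pow_left (by omega) a)

lemma FF_poly (p : ℕ[X]) : ∃ c, ∀ n, FF (p.eval n) + 1 ≤ c * ff n := by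
  obtain ⟨K, hK⟩ := poly_le p
  refine ⟨2 ^ (K + 2 + 66) + 1, fun n => ?_⟩
  have h1 : n + 2 ≤ 2 ^ (n.size + 1) := by
    have := Nat.lt_size_self n
    rw [pow_succ]; omega
  have h2 : p.eval n < 2 ^ ((n.size + 1) * K + 1) := by
    have := (hK n).trans (Nat.pow_le_pow_left h1 K)
    rw [← pow_mul] at this
    have h3 : 0 < 2 ^ ((n.size + 1) * K) := by positivity
    rw [pow_succ]; omega
  have h3 : (p.eval n).size ≤ (n.size + 1) * K + 1 := Nat.size_le.2 h2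
  have h4 := Nat.lt_succ_sqrt n.size
  have h5 := pow_four_le (p.eval n).size
  have h6 : rr (p.eval n) ≤ n.size.sqrt + (K + 2) := by
    by_contra hc
    unfold rr at hc
    generalize (p.eval n).size.sqrt.sqrt = r at *
    generalize n.size.sqrt = s at *
    simp only [Nat.succ_eq_add_one] at h4
    have a1 : (s + 1) * (s + 1) ≤ r * r := Nat.mul_le_mul (by omega) (by omega)
    have a2 : K + 2 ≤ r * r := le_trans (by omega) (Nat.le_mul_self r)
    have a3 : (s + 1) * (s + 1) * (K + 2) ≤ r * r * (r * r) := Nat.mul_le_mul a1 a2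
    have a4 : (n.size + 1) * (K + 2) ≤ (s + 1) * (s + 1) * (K + 2) :=
      Nat.mul_le_mul_right _ (by omega)
    have a5 : r ^ 4 = r * r * (r * r) := by ring
    nlinarith
  have h7 : FF (p.eval n) ≤ 2 ^ (K + 2 + 66) * ff n := by
    rw [FF, ff, ← pow_add]
    exact Nat.pow_le_pow_right (by norm_num) (by omega)
  have h8 : 0 < ff n := by unfold ff; positivity
  rw [add_mul]
  omega

lemma ff_le (n : ℕ) : ff n ≤ 2 * n + 1 := by
  have h1 : ff n ≤ 2 ^ n.size := Nat.pow_le_pow_right (by norm_num) (Nat.sqrt_le_self _)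
  rcases Nat.eq_zero_or_pos n with rfl | h
  · simpa using h1
  · have h2 : 2 ^ (n.size - 1) ≤ n := Nat.lt_size.1 (by have := Nat.size_pos.2 h; omega)
    have h3 : n.size = n.size - 1 + 1 := by have := Nat.size_pos.2 h; omega
    rw [h3, pow_succ] at h1
    omega

lemma ff_subpoly : Subpoly ff := by
  intro ε hε
  obtain ⟨s0, hs0⟩ := exists_nat_gt (2 / ε + 2)
  filter_upwards [Filter.eventually_ge_atTop (2 ^ (s0 * s0))] with n hn
  have hpos : 0 < n := lt_of_lt_of_le (by positivity) hn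
  have h1 : s0 * s0 < n.size := Nat.lt_size.2 hn
  have h2 : s0 ≤ n.size.sqrt := Nat.le_sqrt.2 h1.le
  have h3 := Nat.sqrt_le n.size
  have h4 : 2 ^ (n.size - 1) ≤ n := Nat.lt_size.1 (by omega)
  unfold ff
  generalize n.size.sqrt = s at *
  have h5 : (s0 : ℝ) ≤ s := by exact_mod_cast h2
  have h6 : (s : ℝ) * s - 1 ≤ ((n.size - 1 : ℕ) : ℝ) := by
    rw [Nat.cast_sub (by omega)]
    have : ((s * s : ℕ) : ℝ) ≤ n.size := by exact_mod_cast h3
    push_cast at this ⊢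
    linarith
  have h7 : 2 / ε < s - 2 := by linarith
  have h8 : 2 < (s - 2) * ε := (div_lt_iff₀ hε).1 h7
  have h9 : 0 < 2 / ε := by positivity
  have h10 : (s : ℝ) ≤ ((n.size - 1 : ℕ) : ℝ) * ε := by
    refine le_trans ?_ (mul_le_mul_of_nonneg_right h6 hε.le)
    have a1 : (2 : ℝ) ≤ s := by linarith
    nlinarith [mul_le_mul_of_nonneg_left h8.le (by linarith : (0 : ℝ) ≤ s)]
  calc ((2 ^ s : ℕ) : ℝ) = (2 : ℝ) ^ (s : ℝ) := by rw [Real.rpow_natCast]; push_cast; rfl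
    _ ≤ (2 : ℝ) ^ (((n.size - 1 : ℕ) : ℝ) * ε) :=
        Real.rpow_le_rpow_of_exponent_le (by norm_num) h10
    _ = ((2 : ℝ) ^ (n.size - 1)) ^ ε := by
        rw [Real.rpow_mul (by norm_num), Real.rpow_natCast]
    _ ≤ _ := Real.rpow_le_rpow (by positivity) (by exact_mod_cast h4) hε.le

lemma exp_poly (p : ℕ[X]) (k : ℕ) : ∃ m : ℕ[X], ∀ n,
    p.eval (6 * n + 1 + 3 * 2 ^ n ^ k) ≤ 2 ^ m.eval n := by
  obtain ⟨K, hK⟩ := poly_le p
  refine ⟨(X ^ k + X + 4) * C K, fun n => (hK _).trans ?_⟩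
  have h1 : n < 2 ^ n := Nat.lt_two_pow_self
  have h2 : 0 < 2 ^ n ^ k := by positivity
  have h3 : 6 * n + 1 + 3 * 2 ^ n ^ k + 2 ≤ 2 ^ (n ^ k + n + 4) := by
    rw [pow_add, pow_add]
    nlinarith
  simp only [eval_mul, eval_add, eval_pow, eval_X, eval_C, eval_ofNat]
  rw [pow_mul]
  exact Nat.pow_le_pow_left h3 K

attribute [irreducible] FF

instance : Countable ℕ[X] := by
  refine Function.Surjective.countable (f := fun g : ℕ →₀ ℕ => g.sum fun n a => monomial n a) ?_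
  intro p
  refine ⟨Finsupp.onFinset p.support p.coeff (fun n h => mem_support_iff.2 h), ?_⟩
  beta_reduce
  rw [Finsupp.onFinset_sum _ (by simp)]
  exact (as_sum_support p).symm

end Pool.Agent.MP_d3ab35_lc.H50
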