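import Pool.Agent.MP_d3ab35_lc.H50.Core
import Pool.Agent.MP_d3ab35_lc.H50.Num
import Pool.Agent.Shared.H56.Converse
import Pool.Agent.Shared.H56.More

/-!
The oracle.
-/

set_option autoImplicit false

namespace Pool.Agent.MP_d3ab35_lc.H50

open Polynomial Pool.Agent.Shared.H56 Function

/-! ### Polynomial time functions are countable -/

/-- inversion of one execution step -/
def Inv (s s' : St) : Prog → Prop
  | .skip => s' = s
  | .push r b => s' = update s r (b :: s r)
  | .seq p q => ∃ s1 t1 t2, Exec p s s1 t1 ∧ Exec q s1 s' t2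
  | .pop r a b c => (s r = [] ∧ ∃ t, Exec a s s' t) ∨
      (∃ l t, s r = false :: l ∧ Exec b (update s r l) s' t) ∨
      (∃ l t, s r = true :: l ∧ Exec c (update s r l) s' t)
  | .loop r b c => (s r = [] ∧ s' = s) ∨
      (∃ l s1 t1 t2, s r = false :: l ∧ Exec b (update s r l) s1 t1 ∧
        Exec (.loop r b c) s1 s' t2) ∨
      (∃ l s1 t1 t2, s r = true :: l ∧ Exec c (update s r l) s1 t1 ∧ Exec (.loop r b c) s1 s' t2)

lemma exec_inv {p : Prog} {s s' : St} {t : ℕ} (h : Exec p s s' t) : Inv s s' p := by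
  induction h with
  | skip s => rfl
  | push r b s => rfl
  | seq h1 h2 => exact ⟨_, _, _, h1, h2⟩
  | popE e h => exact Or.inl ⟨e, _, h⟩
  | pop0 e h => exact Or.inr (Or.inl ⟨_, _, e, h⟩)
  | pop1 e h => exact Or.inr (Or.inr ⟨_, _, e, h⟩)
  | loopE e => exact Or.inl ⟨e, rfl⟩
  | loop0 e h1 h2 => exact Or.inr (Or.inl ⟨_, _, _, _, e, h1, h2⟩)
  | loop1 e h1 h2 => exact Or.inr (Or.inr ⟨_, _, _, _, e, h1, h2⟩)
  | mono _ _ ih => exact ih

lemma exec_det {p : Prog} {s s1 : St} {t : ℕ} (h : Exec p s s1 t) :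
    ∀ {s2 : St} {t2 : ℕ}, Exec p s s2 t2 → s1 = s2 := by
  induction h with
  | skip s => intro s2 t2 h; exact (exec_inv h).symm
  | push r b s => intro s2 t2 h; exact (exec_inv h).symm
  | seq _ _ ih1 ih2 =>
    intro s2 t2 h
    obtain ⟨s', _, _, a, b⟩ := exec_inv h
    cases ih1 a
    exact ih2 b
  | popE e _ ih =>
    intro s2 t2 h
    rcases exec_inv h with ⟨_, _, a⟩ | ⟨_, _, a, _⟩ | ⟨_, _, a, _⟩
    · exact ih a
    · rw [e] at a; cases a
    · rw [e] at a; cases a
  | pop0 e _ ih =>
    intro s2 t2 h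
    rcases exec_inv h with ⟨a, _⟩ | ⟨_, _, a, b⟩ | ⟨_, _, a, _⟩ <;> rw [e] at a <;> cases a
    exact ih b
  | pop1 e _ ih =>
    intro s2 t2 h
    rcases exec_inv h with ⟨a, _⟩ | ⟨_, _, a, _⟩ | ⟨_, _, a, b⟩ <;> rw [e] at a <;> cases a
    exact ih b
  | loopE e =>
    intro s2 t2 h
    rcases exec_inv h with ⟨_, a⟩ | ⟨_, _, _, _, a, _⟩ | ⟨_, _, _, _, a, _⟩
    · exact a.symm
    · rw [e] at a; cases a
    · rw [e] at a; cases a
  | loop0 e _ _ ih1 ih2 =>
    intro s2 t2 h
    rcases exec_inv h with ⟨a, _⟩ | ⟨_, _, _, _, a, b, c⟩ | ⟨_, _, _, _, a, _⟩ <;>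
      rw [e] at a <;> cases a
    cases ih1 b
    exact ih2 c
  | loop1 e _ _ ih1 ih2 =>
    intro s2 t2 h
    rcases exec_inv h with ⟨a, _⟩ | ⟨_, _, _, _, a, _⟩ | ⟨_, _, _, _, a, b, c⟩ <;>
      rw [e] at a <;> cases a
    cases ih1 b
    exact ih2 c
  | mono _ _ ih => intro s2 t2 h; exact ih h

/-- numbering of programs -/
def pcode : Prog → ℕ
  | .skip => Nat.pair 0 0
  | .push r b => Nat.pair 1 (Nat.pair r b.toNat)
  | .seq p q => Nat.pair 2 (Nat.pair (pcode p) (pcode q))
  | .pop r a b c => Nat.pair 3 (Nat.pair r (Nat.pair (pcode a) (Nat.pair (pcode b) (pcode c))))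
  | .loop r b c => Nat.pair 4 (Nat.pair r (Nat.pair (pcode b) (pcode c)))

lemma pcode_inj : ∀ p q : Prog, pcode p = pcode q → p = q := by
  intro p
  induction p with
  | skip => intro q h; cases q <;> simp [pcode, Nat.pair_eq_pair] at h ⊢
  | push r b =>
    intro q h
    cases q <;> simp only [pcode, Nat.pair_eq_pair] at h <;> try omega
    obtain ⟨-, rfl, h⟩ := h
    rename_i b'
    cases b <;> cases b' <;> simp at h ⊢
  | seq p q ih1 ih2 =>
    intro q h
    cases q <;> simp only [pcode, Nat.pair_eq_pair] at h <;> try omega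
    rw [ih1 _ h.2.1, ih2 _ h.2.2]
  | pop r a b c ih1 ih2 ih3 =>
    intro q h
    cases q <;> simp only [pcode, Nat.pair_eq_pair] at h <;> try omega
    rw [h.2.1, ih1 _ h.2.2.1, ih2 _ h.2.2.2.1, ih3 _ h.2.2.2.2]
  | loop r b c ih1 ih2 =>
    intro q h
    cases q <;> simp only [pcode, Nat.pair_eq_pair] at h <;> try omega
    rw [h.2.1, ih1 _ h.2.2.1, ih2 _ h.2.2.2]

/-- polynomial time strategies on pairs of strings -/
def Strat : Type := {q : (Str × Str) × Str → Bool × Str // PT q}

instance : Countable Strat := by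
  refine Injective.countable (f := fun q : Strat => pcode q.2.choose) fun q q' h => ?_
  have h1 := pcode_inj _ _ h
  obtain ⟨T, hT⟩ := q.2.choose_spec
  obtain ⟨T', hT'⟩ := q'.2.choose_spec
  refine Subtype.ext (funext fun a => enc_inj ?_)
  have := congrFun (exec_det (hT a) (h1 ▸ hT' a)) 0
  simpa [one] using this

instance : Nonempty Strat := ⟨⟨fun _ => (false, []), PT.const _⟩⟩

/-! ### Runs -/

/-- the decision tree of a run -/
def toDT (q : Str → Bool × Str) : ℕ → Str → DT Str
  | 0, _ => .leaf false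
  | t + 1, ans => if (q ans).1 then .node (q ans).2 (toDT q t (true :: ans)) (toDT q t (false :: ans))
      else .leaf ((q ans).2.headD false)

lemma eval_toDT (O : Str → Bool) (q : Str → Bool × Str) (t : ℕ) :
    ∀ ans, (toDT q t ans).eval O = run O q t ans := by
  induction t with
  | zero => intro ans; rfl
  | succ t ih =>
    intro ans
    simp only [toDT, run]
    split_ifs
    · simp only [DT.eval, ih]
      cases O (q ans).2 <;> simp
    · rfl

lemma depth_toDT (q : Str → Bool × Str) (t : ℕ) : ∀ ans, (toDT q t ans).depth ≤ t := by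
  induction t with
  | zero => intro ans; rfl
  | succ t ih =>
    intro ans
    simp only [toDT]
    split_ifs
    · simp only [DT.depth]
      have := ih (true :: ans)
      have := ih (false :: ans)
      omega
    · simp [DT.depth]

lemma run_cert (O : Str → Bool) (q : Str → Bool × Str) (W : ℕ) (t : ℕ) :
    ∀ ans : Str, (∀ l : Str, l.length ≤ ans.length + t → (q l).2.length + 1 ≤ W) →
      ∃ Q : Finset Str, ∑ s ∈ Q, (s.length + 1) ≤ t * W ∧
        ∀ O' : Str → Bool, (∀ s ∈ Q, O' s = O s) → run O' q t ans = run O q t ans := by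
  induction t with
  | zero => intro ans _; exact ⟨∅, by simp, fun _ _ => rfl⟩
  | succ t ih =>
    intro ans h
    obtain ⟨Q, h1, h2⟩ := ih (O (q ans).2 :: ans) fun l hl => h l (by simp at hl; omega)
    refine ⟨insert (q ans).2 Q, ?_, fun O' hO => ?_⟩
    · have h3 := h ans (by omega)
      by_cases hm : (q ans).2 ∈ Q
      · rw [Finset.insert_eq_of_mem hm, Nat.succ_mul]; omega
      · rw [Finset.sum_insert hm, Nat.succ_mul]; omega
    · simp only [run]
      rw [hO _ (Finset.mem_insert_self _ _), h2 O' fun s hs => hO s (Finset.mem_insert_of_mem hs)]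

/-- the tree that computes a disjunction -/
def orTree : List Str → DT Str
  | [] => .leaf false
  | s :: l => .node s (.leaf true) (orTree l)

lemma eval_orTree (O : Str → Bool) (l : List Str) :
    (orTree l).eval O = true ↔ ∃ s ∈ l, O s = true := by
  induction l with
  | nil => simp [orTree, DT.eval]
  | cons s l ih => cases h : O s <;> simp [orTree, DT.eval, h, ih]

lemma depth_orTree (l : List Str) : (orTree l).depth = l.length := by
  induction l with
  | nil => rfl
  | cons s l ih => simp [orTree, DT.depth, ih]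

lemma po_query {α : Type} [N487b59b3 α] (O : Str → Bool) {g : α → Str} (hg : PT g) :
    PO O (fun a => O (g a)) := by
  refine ⟨2, fun p => if p.2.isEmpty then (true, g p.1) else (false, p.2), PT.isPolyTime ?_,
    fun a => ?_⟩
  · exact (PT.cond (c := fun p : α × Str => p.2.isEmpty) (f := fun p => (true, g p.1))
      (g := fun p => (false, p.2)) (by fun_prop) (by fun_prop) (by fun_prop)).congr
      fun p => by cases p.2.isEmpty <;> rfl
  · simp [run]

/-! ### Codes -/

/-- strings of a given length -/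
def strs (n : ℕ) : Finset Str :=
  (Finset.univ : Finset (Fin n → Bool)).map ⟨List.ofFn, List.ofFn_injective⟩

lemma mem_strs {n : ℕ} {s : Str} : s ∈ strs n ↔ s.length = n := by
  simp only [strs, Finset.mem_map, Finset.mem_univ, true_and, Embedding.coeFn_mk]
  constructor
  · rintro ⟨f, rfl⟩; simp
  · rintro rfl; exact ⟨s.get, List.ofFn_get s⟩

lemma card_strs (n : ℕ) : (strs n).card = 2 ^ n := by simp [strs]

/-- instances -/
def inst (i : ℕ) (x : Str) (m : ℕ) : Str := enc (un i, x, un m)

lemma length_inst (i : ℕ) (x : Str) (m : ℕ) :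
    (inst i x m).length = 6 * i + 6 * x.length + 3 * m + 2 := by
  have : (inst i x m).length = sz (un i, x, un m) := rfl
  rw [this, sz_pair, sz_pair, sz_list_bool, sz_list_bool, sz_list_bool]
  simp [un]; ring

lemma inst_inj {i i' m m' : ℕ} {x x' : Str} (h : inst i x m = inst i' x' m') :
    i = i' ∧ x = x' := by
  have := enc_inj h
  simp only [Prod.mk.injEq] at this
  exact ⟨by simpa [un] using congrArg List.length this.1, this.2.1⟩

lemma pt_inst (i : ℕ) (m : ℕ[X]) : PT fun x : Str => inst i x (m.eval x.length) := by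
  have := PT.un_poly (α := Str) (n := fun x => x.length) (by fun_prop) m
  unfold inst
  fun_prop

/-- block codes -/
def code0 (u y : Str) : Str := false :: enc (u, y)

/-- advice codes -/
def code1 (v a : Str) : Str := true :: enc (v, a)

lemma code0_inj {u y u' y' : Str} (h : code0 u y = code0 u' y') : u = u' ∧ y = y' :=
  Prod.mk.inj (enc_inj (List.cons.inj h).2)

open Classical in
/-- owner of a position -/
noncomputable def own (s : Str) : Option Str :=
  if h : ∃ u y, s = code0 u y then some h.choose else none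

lemma own_eq {s u : Str} : own s = some u ↔ ∃ y, s = code0 u y := by
  unfold own
  split_ifs with h
  · obtain ⟨y, hy⟩ := h.choose_spec
    constructor
    · intro e
      exact ⟨y, Option.some.inj e ▸ hy⟩
    · rintro ⟨y', e⟩
      rw [(code0_inj (hy.symm.trans e)).1]
  · exact ⟨fun e => (by cases e), fun ⟨y, e⟩ => absurd ⟨u, y, e⟩ h⟩

lemma own_code1 (v a : Str) : own (code1 v a) = none := by
  unfold own
  rw [dif_neg]
  rintro ⟨u, y, e⟩
  cases (List.cons.inj e).1

/-- blocks -/
def blk (u : Str) : Finset Str := (strs (FF u.length + 1)).image (code0 u)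

lemma card_blk (u : Str) : (blk u).card = 2 ^ (FF u.length + 1) := by
  rw [blk, Finset.card_image_of_injective _ fun y y' h => (code0_inj h).2, card_strs]

lemma mem_blk {u s : Str} : s ∈ blk u ↔ ∃ y : Str, y.length = FF u.length + 1 ∧ code0 u y = s := by
  simp only [blk, Finset.mem_image, mem_strs]

/-- nondeterministic machines -/
noncomputable def eI : ℕ → Strat × ℕ[X] × ℕ[X] := (exists_surjective_nat _).choose

/-- tree families -/
noncomputable def eJ : ℕ → (Strat × ℕ[X] × ℕ) ⊕ (ℕ × ℕ[X]) := (exists_surjective_nat _).choose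

lemma eI_surj : Surjective eI := (exists_surjective_nat _).choose_spec

lemma eJ_surj : Surjective eJ := (exists_surjective_nat _).choose_spec

/-- machine `i` accepts `x` -/
def Acc (i : ℕ) (x : Str) (A : Str → Bool) : Prop :=
  ∃ w : Str, w.length ≤ (eI i).2.2.eval x.length ∧
    run A (fun ans => (eI i).1.1 ((x, w), ans)) ((eI i).2.1.eval (sz (x, w))) [] = true

/-- the universal nondeterministic predicate -/
def NN (u : Str) (A : Str → Bool) : Prop :=
  ∃ i x m, u = inst i x m ∧ ∃ Q : Finset Str, ∑ s ∈ Q, (s.length + 1) ≤ u.length ∧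
    ∀ A' : Str → Bool, (∀ s ∈ Q, A' s = A s) → Acc i x A'

/-- the concrete system -/
noncomputable def sys : Sys Str Str where
  wt s := s.length + 1
  sz u := u.length
  N := NN
  own := own
  blk := blk
  H m := 2 ^ FF m
  wt_pos s := by omega
  own_blk u s h := by
    obtain ⟨y, -, rfl⟩ := mem_blk.1 h
    exact own_eq.2 ⟨y, rfl⟩
  own_wt s u h := by
    obtain ⟨y, rfl⟩ := own_eq.1 h
    have : (code0 u y).length = sz (u, y) + 1 := rfl
    rw [this, sz_pair, sz_list_bool]
    omega
  card_blk u := by rw [card_blk, pow_succ]; omega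
  cert u A := by
    rintro ⟨i, x, m, e, Q, h1, h2⟩
    exact ⟨Q, h1, fun A' h => ⟨i, x, m, e, Q, h1, fun A'' h' =>
      h2 A'' fun s hs => (h' s hs).trans (h s hs)⟩⟩
  h1 := H1

lemma acc_iff (i : ℕ) : ∃ m : ℕ[X], ∀ x A, Acc i x A ↔ NN (inst i x (m.eval x.length)) A := by
  obtain ⟨B, hB⟩ := (eI i).1.2.size
  let P1 : ℕ[X] := 6 * X + 1 + 3 * (eI i).2.2
  let P2 : ℕ[X] := (eI i).2.1.comp P1
  refine ⟨P2 * (B.comp (2 * P1 + 1 + 3 * P2) + 1), fun x A => ⟨?_, ?_⟩⟩
  · rintro ⟨w, h1, h2⟩
    have e1 : sz (x, w) ≤ P1.eval x.length := by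
      rw [sz_pair, sz_list_bool, sz_list_bool]
      simp only [P1, eval_add, eval_mul, eval_ofNat, eval_X, eval_one]
      omega
    have e2 : (eI i).2.1.eval (sz (x, w)) ≤ P2.eval x.length := by
      rw [eval_comp]; exact poly_mono _ e1
    obtain ⟨Q, a, b⟩ := run_cert A (fun ans => (eI i).1.1 ((x, w), ans))
      ((B.comp (2 * P1 + 1 + 3 * P2) + 1).eval x.length) ((eI i).2.1.eval (sz (x, w))) []
      (fun l hl => by
        have c1 := hB ((x, w), l)
        have c2 : sz ((x, w), l) ≤ (2 * P1 + 1 + 3 * P2).eval x.length := by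
          rw [sz_pair, sz_list_bool]
          simp only [eval_add, eval_mul, eval_ofNat, eval_one]
          simp only [List.length_nil] at hl
          omega
        have c3 := poly_mono B c2
        have c4 : sz ((eI i).1.1 ((x, w), l)) = 2 * sz ((eI i).1.1 ((x, w), l)).1 + 1 +
            sz ((eI i).1.1 ((x, w), l)).2 := sz_pair _ _
        rw [sz_list_bool] at c4
        rw [eval_add, eval_comp, eval_one]
        omega)
    refine ⟨i, x, _, rfl, Q, ?_, fun A' h => ⟨w, h1, (b A' h).trans h2⟩⟩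
    have := Nat.mul_le_mul_right ((B.comp (2 * P1 + 1 + 3 * P2) + 1).eval x.length) e2
    rw [length_inst, eval_mul]
    omega
  · rintro ⟨i', x', m', e, Q, -, h⟩
    obtain ⟨rfl, rfl⟩ := inst_inj e
    exact h A fun _ _ => rfl

lemma np_index {A L : Str → Bool} (h : L ∈ NPO A) : ∃ i, ∀ x, L x = true ↔ Acc i x A := by
  obtain ⟨p1, R, ⟨p, q, hq, hR⟩, hL⟩ := h
  obtain ⟨i, hi⟩ := eI_surj (⟨q, PT.of_isPolyTime hq⟩, p, p1)
  refine ⟨i, fun x => (hL x).trans ?_⟩
  simp only [Acc, hi, hR]
  rfl

/-- the trees of a family -/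
noncomputable def GG (x : Str) : (Strat × ℕ[X] × ℕ) ⊕ (ℕ × ℕ[X]) → DT Str
  | .inl M => toDT (fun ans => M.1.1 ((x, List.replicate (2 ^ x.length ^ M.2.2) true), ans))
      (M.2.1.eval (sz (x, List.replicate (2 ^ x.length ^ M.2.2) true))) []
  | .inr M => orTree (blk (inst M.1 x (M.2.eval x.length))).toList

open Classical in
/-- the universal tree -/
noncomputable def TT (v : Str) : DT Str :=
  if h : ∃ p : ℕ × Str, (∃ m, v = inst p.1 p.2 m) ∧ (GG p.2 (eJ p.1)).depth ≤ 2 ^ v.length then
    GG h.choose.2 (eJ h.choose.1) else .leaf false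

lemma depth_TT (v : Str) : (TT v).depth ≤ 2 ^ v.length := by
  unfold TT
  split_ifs with h
  · exact h.choose_spec.2
  · simp [DT.depth]

lemma TT_inst {j m : ℕ} {x : Str} (h : (GG x (eJ j)).depth ≤ 2 ^ m) :
    TT (inst j x m) = GG x (eJ j) := by
  have h1 : ∃ p : ℕ × Str, (∃ m', inst j x m = inst p.1 p.2 m') ∧
      (GG p.2 (eJ p.1)).depth ≤ 2 ^ (inst j x m).length :=
    ⟨(j, x), ⟨m, rfl⟩, h.trans (Nat.pow_le_pow_right (by norm_num) (by rw [length_inst]; omega))⟩
  unfold TT
  rw [dif_pos h1]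
  obtain ⟨m', e⟩ := h1.choose_spec.1
  obtain ⟨e1, e2⟩ := inst_inj e
  rw [← e1, ← e2]

theorem exists_oracle : ∃ (A : Str → Bool) (adv : ℕ → Str),
    (∀ u y, A (code0 u y) = true → NN u A) ∧ (∀ u, NN u A → ∃ s ∈ blk u, A s = true) ∧
    (∀ n, (adv n).length = 3 * n + 4) ∧ ∀ v, A (code1 v (adv v.length)) = (TT v).eval A := by
  obtain ⟨A, h1, h2, h3⟩ := Sys.core sys H2 strs (fun _ _ => mem_strs) (fun n => (card_strs n).le)
    strs (fun n => (card_strs n).le) TT (fun n v hv => mem_strs.1 hv ▸ depth_TT v)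
    (fun n => strs (3 * n + 4)) (fun n => by
      rw [card_strs, show (8 : ℕ) = 2 ^ 3 by norm_num, ← pow_mul]
      exact Nat.pow_lt_pow_right (by norm_num) (by omega)) code1
    (fun v a v' a' h => Prod.mk.inj (enc_inj (List.cons.inj h).2)) own_code1
  choose adv h4 h5 using h3
  exact ⟨A, adv, fun u y h => h1 _ u h (own_eq.2 ⟨y, rfl⟩), h2, fun n => mem_strs.1 (h4 n),
    fun v => h5 _ v (mem_strs.2 rfl)⟩

/-! ### The three properties -/

lemma beta_sub_np (A : Str → Bool) : Beta A ff ⊆ NPO A := by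
  rintro L ⟨c, R, ⟨p, q, hq, hR⟩, hL⟩
  have hq' := PT.of_isPolyTime hq
  have key : ∀ x y : Str, y.length ≤ c * ff x.length ↔
      ∃ j ∈ List.range (sz x.length + 1), j * j ≤ sz x.length ∧
        y.length ≤ c * 2 ^ min j (sz x.length) := by
    intro x y
    rw [sz_nat, ff]
    constructor
    · intro h
      have := Nat.sqrt_le_self x.length.size
      exact ⟨_, List.mem_range.2 (by omega), Nat.sqrt_le _, by rwa [min_eq_left this]⟩
    · rintro ⟨j, -, h1, h2⟩
      refine h2.trans (Nat.mul_le_mul_left _ (Nat.pow_le_pow_right (by norm_num) ?_))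
      exact (min_le_left _ _).trans (Nat.le_sqrt.2 h1)
  have hd : PT fun a : Str × Str => decide (a.2.length ≤ c * ff a.1.length) := by
    have h1 : PT fun a : Str × Str => un (sz a.1.length) := by fun_prop
    have h2 : PT fun a : Str × Str => un (sz a.1.length + 1) := h1.un_add (PT.const _)
    have h3 : PT fun a : (Str × Str) × ℕ => un (sz a.1.1.length) := by fun_prop
    have h4 : PT fun a : (Str × Str) × ℕ => sz a.1.1.length := h3.of_un
    have h5 : PT fun a : (Str × Str) × ℕ => un (min a.2 (sz a.1.1.length)) :=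
      PT.un_min (by fun_prop) h3
    have h6 : PT fun a : (Str × Str) × ℕ => 2 ^ min a.2 (sz a.1.1.length) :=
      PT.pow (PT.const 2) h5
    have h7 := PT.decBex (α := Str × Str) (p := fun a j => j * j ≤ sz a.1.length ∧
      a.2.length ≤ c * 2 ^ min j (sz a.1.length)) (l := fun a => List.range (sz a.1.length + 1))
      (PT.decAnd (PT.decLe (by fun_prop) h4) (PT.decLe (by fun_prop) ((PT.const c).mul h6)))
      (PT.range h2)
    exact h7.congr fun a => decide_eq_decide.2 (key a.1 a.2).symm
  refine ⟨C c * (2 * X + 1), fun a => decide (a.2.length ≤ c * ff a.1.length) && R a,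
    ⟨p, fun z => cond (decide (z.1.2.length ≤ c * ff z.1.1.length)) (q z) (false, []),
      PT.isPolyTime (PT.cond (hd.comp (g := fun z : (Str × Str) × Str => z.1) (by fun_prop)) hq'
        (PT.const _)), fun a => ?_⟩, fun x => (hL x).trans ⟨?_, ?_⟩⟩
  · cases e : decide (a.2.length ≤ c * ff a.1.length) with
    | true => simpa [e] using hR a
    | false =>
      simp only [e, Bool.false_and, cond_false]
      cases p.eval (N487b59b3.bitEncode a).length <;> simp [run]
  · rintro ⟨y, h1, h2⟩
    refine ⟨y, ?_, by simp [h1, h2]⟩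
    simp only [eval_mul, eval_C, eval_add, eval_ofNat, eval_X, eval_one]
    exact h1.trans (Nat.mul_le_mul_left _ (ff_le _))
  · rintro ⟨y, -, h2⟩
    simp only [Bool.and_eq_true, decide_eq_true_eq] at h2
    exact ⟨y, h2.1, h2.2⟩

section

variable {A : Str → Bool} {adv : ℕ → Str} (h1 : ∀ u y, A (code0 u y) = true → NN u A)
  (h2 : ∀ u, NN u A → ∃ s ∈ blk u, A s = true) (h3 : ∀ n, (adv n).length = 3 * n + 4)
  (h4 : ∀ v, A (code1 v (adv v.length)) = (TT v).eval A)

include h1 h2 in
lemma np_sub_beta : NPO A ⊆ Beta A ff := by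
  intro L hL
  obtain ⟨i, hi⟩ := np_index hL
  obtain ⟨m, hm⟩ := acc_iff i
  obtain ⟨c, hc⟩ := FF_poly (6 * C i + 6 * X + 3 * m + 2)
  have hp := pt_inst i m
  refine ⟨c, fun a => A (code0 (inst i a.1 (m.eval a.1.length)) a.2), po_query A ?_,
    fun x => (hi x).trans ((hm x A).trans ⟨fun h => ?_, fun ⟨y, _, h⟩ => h1 _ y h⟩)⟩
  · have := hp.comp (g := fun a : Str × Str => a.1) (by fun_prop)
    unfold code0
    fun_prop
  · obtain ⟨s, a, b⟩ := h2 _ h
    obtain ⟨y, hy, rfl⟩ := mem_blk.1 a
    refine ⟨y, ?_, b⟩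
    rw [hy, length_inst]
    simpa using hc x.length

include h3 h4 in
lemma exp_sub_ppoly : EXPO A ⊆ PPolyO A := by
  rintro L ⟨k, R, ⟨p, q, hq, hR⟩, hL⟩
  obtain ⟨j, hj⟩ := eJ_surj (.inl (⟨q, PT.of_isPolyTime hq⟩, p, k))
  obtain ⟨m, hm⟩ := exp_poly p k
  have hp := pt_inst j m
  refine ⟨3 * (6 * C j + 6 * X + 3 * m + 2) + 4, fun n => adv (6 * j + 6 * n + 3 * m.eval n + 2),
    fun a => A (code1 (inst j a.1 (m.eval a.1.length)) a.2), po_query A ?_, fun n => ?_,
    fun x => ?_⟩
  · have := hp.comp (g := fun a : Str × Str => a.1) (by fun_prop)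
    unfold code1
    fun_prop
  · simp [h3]
  · beta_reduce
    rw [← length_inst, h4, TT_inst, hj, hL, hR]
    · exact (eval_toDT _ _ _ _).symm
    · rw [hj]
      refine (depth_toDT _ _ _).trans (le_trans (le_of_eq ?_) (hm x.length))
      rw [sz_pair, sz_list_bool, sz_list_bool, List.length_replicate]
      congr 1
      dsimp only
      omega

include h1 h2 h4 in
lemma np_advice {L : Str → Bool} (hL : L ∈ NPO A) : ∃ (j : ℕ) (m : ℕ[X]), ∀ x,
    L x = A (code1 (inst j x (m.eval x.length)) (adv (inst j x (m.eval x.length)).length)) := by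
  obtain ⟨i, hi⟩ := np_index hL
  obtain ⟨m, hm⟩ := acc_iff i
  obtain ⟨c, hc⟩ := FF_poly (6 * C i + 6 * X + 3 * m + 2)
  obtain ⟨j, hj⟩ := eJ_surj (.inr (i, m))
  refine ⟨j, C c * (2 * X + 1), fun x => ?_⟩
  rw [h4, TT_inst, hj, Bool.eq_iff_iff, hi, hm, GG, eval_orTree]
  · simp only [Finset.mem_toList]
    refine ⟨h2 _, fun ⟨s, a, b⟩ => ?_⟩
    obtain ⟨y, -, rfl⟩ := mem_blk.1 a
    exact h1 _ y b
  · rw [hj, GG, depth_orTree, Finset.length_toList, card_blk, length_inst]
    refine Nat.pow_le_pow_right (by norm_num) ?_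
    have := (hc x.length).trans (Nat.mul_le_mul_left c (ff_le x.length))
    simpa using this

end

open Classical in
/-- the bits of the advice strings -/
noncomputable def advSet (adv : ℕ → Str) (s : Str) : Bool :=
  decide (∃ n j, s = enc (un n, un j) ∧ (adv n).getD j false = true)

lemma advSet_iff (adv : ℕ → Str) (s : Str) : advSet adv s = true ↔
    ∃ n j, s = enc (un n, un j) ∧ (adv n).getD j false = true := by
  classical
  exact decide_eq_true_iff

lemma advSet_enc (adv : ℕ → Str) (n j : ℕ) :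
    advSet adv (enc (un n, un j)) = (adv n).getD j false := by
  rw [Bool.eq_iff_iff, advSet_iff]
  refine ⟨fun ⟨n', j', e, h⟩ => ?_, fun h => ⟨n, j, rfl, h⟩⟩
  have := enc_inj e
  simp only [Prod.mk.injEq] at this
  have a : n = n' := by simpa [un] using congrArg List.length this.1
  have b : j = j' := by simpa [un] using congrArg List.length this.2
  rwa [a, b]

lemma advSet_sparse (adv : ℕ → Str) : Sparse (advSet adv) := by
  refine ⟨(X + 1) * (X + 1), fun N => ?_⟩
  have : {x : Str | x.length ≤ N ∧ advSet adv x = true} ⊆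
      ((Finset.range (N + 1) ×ˢ Finset.range (N + 1)).image
        (fun p : ℕ × ℕ => enc (un p.1, un p.2)) : Finset Str) := by
    rintro s ⟨a, b⟩
    rw [advSet_iff] at b
    obtain ⟨n, j, rfl, -⟩ := b
    have e : (enc (un n, un j)).length = sz (un n, un j) := rfl
    rw [e, sz_pair, sz_list_bool, sz_list_bool] at a
    simp only [un, List.length_replicate] at a
    exact Finset.mem_coe.2 (Finset.mem_image.2 ⟨(n, j), Finset.mem_product.2
      ⟨Finset.mem_range.2 (by omega), Finset.mem_range.2 (by omega)⟩, rfl⟩)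
  refine (Set.encard_le_encard this).trans ?_
  rw [Set.encard_coe_eq_coe_finsetCard]
  exact_mod_cast Finset.card_image_le.trans (by simp)

/-- the strategy that reads the advice from the sparse set -/
def rdq (v ans : Str) : Bool × Str :=
  if ans.length < 3 * v.length + 4 then (true, true :: enc (un v.length, un ans.length))
  else if ans.length = 3 * v.length + 4 then (true, false :: code1 v ans.reverse)
  else (false, ans)

lemma run_rdq (A : Str → Bool) (adv : ℕ → Str) (v : Str)
    (h : (adv v.length).length = 3 * v.length + 4) (e t : ℕ) : ∀ k, k + t = 3 * v.length + 4 →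
    run (join A (advSet adv)) (rdq v) (t + 2 + e) ((adv v.length).take k).reverse =
      A (code1 v (adv v.length)) := by
  induction t with
  | zero =>
    intro k hk
    rw [List.take_of_length_le (by omega), show 0 + 2 + e = e + 1 + 1 by omega]
    simp [run, rdq, h, join]
  | succ t ih =>
    intro k hk
    have a : ((adv v.length).take k).reverse.length = k := by simp; omega
    have b : rdq v ((adv v.length).take k).reverse = (true, true :: enc (un v.length, un k)) := by
      rw [rdq, a, if_pos (by omega)]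
    rw [show t + 1 + 2 + e = t + 2 + e + 1 by omega, run, b, ← ih (k + 1) (by omega)]
    simp only [if_true, join, advSet_enc]
    congr 1
    rw [List.take_add_one, List.reverse_append, List.getD_eq_getElem?_getD,
      List.getElem?_eq_getElem (by omega)]
    simp

theorem main : ∃ O : Str → Bool, (∃ f, Subpoly f ∧ NPO O = Beta O f) ∧
    (∃ S, Sparse S ∧ ∀ L ∈ NPO O, PO (join O S) L) ∧ EXPO O ⊆ PPolyO O := by
  obtain ⟨A, adv, h1, h2, h3, h4⟩ := exists_oracle
  refine ⟨A, ⟨ff, ff_subpoly, (np_sub_beta h1 h2).antisymm (beta_sub_np A)⟩,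
    ⟨advSet adv, advSet_sparse adv, fun L hL => ?_⟩, exp_sub_ppoly h3 h4⟩
  obtain ⟨j, m, hm⟩ := np_advice h1 h2 h4 hL
  refine ⟨3 * (6 * C j + 6 * X + 3 * m + 2) + 6,
    fun z => rdq (inst j z.1 (m.eval z.1.length)) z.2, PT.isPolyTime ?_, fun x => ?_⟩
  · have h5 := (pt_inst j m).comp (g := fun a : Str × Str => a.1) (by fun_prop)
    have h6 : PT fun z : Str × Str => rdq z.1 z.2 := by
      unfold rdq code1
      fun_prop
    exact h6.comp (g := fun z : Str × Str => (inst j z.1 (m.eval z.1.length), z.2)) (by fun_prop)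
  · have h5 : x.length ≤ (N487b59b3.bitEncode x).length := length_le_sz x
    have h6 := poly_mono (3 * (6 * C j + 6 * X + 3 * m + 2) + 6) h5
    have h7 : (3 * (6 * C j + 6 * X + 3 * m + 2) + 6 : ℕ[X]).eval x.length =
        3 * (inst j x (m.eval x.length)).length + 4 + 2 := by
      rw [length_inst]; simp
    obtain ⟨e, he⟩ := Nat.exists_eq_add_of_le h6
    rw [he, h7, hm x]
    exact (run_rdq A adv _ (h3 _) e _ 0 (by omega)).symm

end Pool.Agent.MP_d3ab35_lc.H50
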