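import Mathlib

/-!
The combinatorial core: an oracle that codes nondeterministic instances in small blocks and
deterministic instances at advice strings.
-/

set_option autoImplicit false

namespace Pool.Agent.MP_d3ab35_lc.H50

open Finset

/-- decision trees -/
inductive DT (S : Type) : Type
  | leaf : Bool → DT S
  | node : S → DT S → DT S → DT S

/-- value of a tree -/
def DT.eval {S : Type} (A : S → Bool) : DT S → Bool
  | .leaf b => b
  | .node s t f => if A s then t.eval A else f.eval A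

/-- depth of a tree -/
def DT.depth {S : Type} : DT S → ℕ
  | .leaf _ => 0
  | .node _ t f => max t.depth f.depth + 1

/-- the data of the nondeterministic side -/
structure Sys (S U : Type) where
  wt : S → ℕ
  sz : U → ℕ
  N : U → (S → Bool) → Prop
  own : S → Option U
  blk : U → Finset S
  H : ℕ → ℕ
  wt_pos : ∀ s, 1 ≤ wt s
  own_blk : ∀ u s, s ∈ blk u → own s = some u
  own_wt : ∀ s u, own s = some u → 2 * sz u < wt s
  card_blk : ∀ u, 2 * H (sz u) ≤ (blk u).card
  cert : ∀ u A, N u A → ∃ Q : Finset S, ∑ s ∈ Q, wt s ≤ sz u ∧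
    ∀ A' : S → Bool, (∀ s ∈ Q, A' s = A s) → N u A'
  h1 : ∀ m, 2 * m < H m

/-- finite conditions -/
structure Cond (S : Type) where
  D : Finset S
  A : S → Bool

variable {S U : Type} [DecidableEq S]

/-- the oracle `A` extends the condition -/
def Cond.Sat (C : Cond S) (A : S → Bool) : Prop := ∀ s ∈ C.D, A s = C.A s

/-- extension of conditions -/
def Cond.Le (C C' : Cond S) : Prop := C.D ⊆ C'.D ∧ C.Sat C'.A

omit [DecidableEq S] in
lemma Cond.Le.refl (C : Cond S) : C.Le C := ⟨Subset.refl _, fun _ _ => rfl⟩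

omit [DecidableEq S] in
lemma Cond.Le.sat {C C' : Cond S} (h : C.Le C') {A : S → Bool} (hA : C'.Sat A) : C.Sat A :=
  fun s hs => (hA s (h.1 hs)).trans (h.2 s hs)

omit [DecidableEq S] in
lemma Cond.Le.trans {C C' C'' : Cond S} (h : C.Le C') (h' : C'.Le C'') : C.Le C'' :=
  ⟨h.1.trans h'.1, h.sat h'.2⟩

namespace Sys

variable (X : Sys S U)

/-- every positive code is correct -/
def Sound (A : S → Bool) : Prop := ∀ s u, A s = true → X.own s = some u → X.N u A

/-- the condition forces the instance -/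
def Forces (C : Cond S) (u : U) : Prop := ∀ A, C.Sat A → X.N u A

/-- every positive code of the condition is forced -/
def SoundC (C : Cond S) : Prop :=
  ∀ s ∈ C.D, C.A s = true → ∀ u, X.own s = some u → X.Forces C u

/-- the instance is decided -/
def Dec (C : Cond S) (u : U) : Prop :=
  (∃ s ∈ X.blk u, s ∈ C.D ∧ C.A s = true) ∨ ∀ A, C.Sat A → X.Sound A → ¬ X.N u A

open Classical in
/-- the positions that count -/
noncomputable def Z (C : Cond S) : Finset S :=
  C.D.filter fun s => ∀ u, X.own s = some u → ¬ X.Dec C u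

/-- number of fixed positions of a block -/
def z (C : Cond S) (u : U) : ℕ := (X.blk u ∩ C.D).card

variable {X}

omit [DecidableEq S] in
lemma Forces.mono {C C' : Cond S} {u : U} (h : X.Forces C u) (hle : C.Le C') : X.Forces C' u :=
  fun A hA => h A (hle.sat hA)

omit [DecidableEq S] in
lemma Dec.mono {C C' : Cond S} {u : U} (h : X.Dec C u) (hle : C.Le C') : X.Dec C' u := by
  rcases h with ⟨s, h1, h2, h3⟩ | h
  · exact Or.inl ⟨s, h1, hle.1 h2, (hle.2 s h2).trans h3⟩
  · exact Or.inr fun A hA => h A (hle.sat hA)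

omit [DecidableEq S] in
lemma mem_Z {C : Cond S} {s : S} :
    s ∈ X.Z C ↔ s ∈ C.D ∧ ∀ u, X.own s = some u → ¬ X.Dec C u := by
  classical
  simp only [Z, mem_filter]

lemma blk_sub_Z {C : Cond S} {u : U} (h : ¬ X.Dec C u) : X.blk u ∩ C.D ⊆ X.Z C := by
  intro s hs
  rw [mem_inter] at hs
  refine mem_Z.2 ⟨hs.2, fun u' hu' => ?_⟩
  rw [X.own_blk u s hs.1] at hu'
  cases hu'
  exact h

lemma sum_biUnion_le {ι : Type} (w : S → ℕ) (I : Finset ι) (t : ι → Finset S) :
    ∑ s ∈ I.biUnion t, w s ≤ ∑ i ∈ I, ∑ s ∈ t i, w s := by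
  classical
  induction I using Finset.induction_on with
  | empty => simp
  | insert i I hi ih =>
    rw [biUnion_insert, sum_insert hi]
    have := sum_union_inter (s₁ := t i) (s₂ := I.biUnion t) (f := w)
    omega

lemma pathTree {A : S → Bool} (hA : X.Sound A) (n : ℕ) : ∀ u, X.sz u = n → X.N u A →
    ∃ τ : Finset S, ∑ s ∈ τ, X.wt s ≤ 2 * X.sz u ∧ X.Forces ⟨τ, A⟩ u ∧ X.SoundC ⟨τ, A⟩ := by
  induction n using Nat.strong_induction_on with
  | _ n ih =>
    intro u hu hN
    obtain ⟨Q, hQ, hQf⟩ := X.cert u A hN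
    have key : ∀ s, ∃ τ : Finset S, s ∈ Q → ∑ s' ∈ τ, X.wt s' ≤ X.wt s ∧ X.SoundC ⟨τ, A⟩ ∧
        (A s = true → ∀ u', X.own s = some u' → X.Forces ⟨τ, A⟩ u') := by
      intro s
      by_cases h : s ∈ Q ∧ A s = true ∧ ∃ u', X.own s = some u'
      · obtain ⟨hs, h1, u', h2⟩ := h
        have h3 := X.own_wt s u' h2
        have h4 : X.wt s ≤ ∑ s ∈ Q, X.wt s := single_le_sum (fun _ _ => Nat.zero_le _) hs
        obtain ⟨τ, a1, a2, a3⟩ := ih (X.sz u') (by omega) u' rfl (hA s u' h1 h2)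
        refine ⟨τ, fun _ => ⟨by omega, a3, fun _ u'' h5 => ?_⟩⟩
        rw [h2] at h5
        cases h5
        exact a2
      · refine ⟨∅, fun hs => ⟨by simp, fun s' hs' => by simp at hs', fun h1 u' h2 => ?_⟩⟩
        exact absurd ⟨hs, h1, u', h2⟩ h
    choose t ht using key
    have hsub : ∀ s ∈ Q, Cond.Le ⟨t s, A⟩ ⟨Q ∪ Q.biUnion t, A⟩ := fun s hs =>
      ⟨(subset_biUnion_of_mem t hs).trans subset_union_right, fun _ _ => rfl⟩
    refine ⟨Q ∪ Q.biUnion t, ?_, fun A' hA' => hQf A' fun s hs => hA' s (mem_union_left _ hs), ?_⟩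
    · have h1 := sum_union_inter (s₁ := Q) (s₂ := Q.biUnion t) (f := X.wt)
      have h2 := sum_biUnion_le X.wt Q t
      have h3 : ∑ i ∈ Q, ∑ s ∈ t i, X.wt s ≤ ∑ s ∈ Q, X.wt s :=
        sum_le_sum fun s hs => (ht s hs).1
      omega
    · intro s hs h1 u' h2
      rcases mem_union.1 hs with h | h
      · exact ((ht s h).2.2 h1 u' h2).mono (hsub s h)
      · obtain ⟨s', h3, h4⟩ := mem_biUnion.1 h
        exact ((ht s' h3).2.1 s h4 h1 u' h2).mono (hsub s' h3)

lemma decide {C : Cond S} (hC : X.SoundC C) {u : U} (hz : X.z C u < 2 * X.H (X.sz u)) :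
    ∃ (C' : Cond S) (τ : Finset S), C.Le C' ∧ X.SoundC C' ∧ X.Dec C' u ∧ τ.card ≤ 2 * X.sz u ∧
      (∀ s ∈ τ, ∀ u', X.own s = some u' → X.sz u' < X.sz u) ∧
      ∀ s ∈ C'.D, s ∈ C.D ∨ s ∈ τ ∨ s ∈ X.blk u := by
  by_cases h : ∃ A, C.Sat A ∧ X.Sound A ∧ X.N u A
  swap
  · exact ⟨C, ∅, .refl C, hC, Or.inr fun A h1 h2 h3 => h ⟨A, h1, h2, h3⟩, by simp, by simp,
      fun s hs => Or.inl hs⟩
  obtain ⟨A, h1, h2, h3⟩ := h
  obtain ⟨τ, a1, a2, a3⟩ := pathTree h2 _ u rfl h3
  obtain ⟨s0, b1, b2⟩ : ∃ s0 ∈ X.blk u, s0 ∉ C.D := by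
    by_contra hc
    push Not at hc
    have : X.blk u ∩ C.D = X.blk u := inter_eq_left.2 hc
    have h5 := X.card_blk u
    rw [z, this] at hz
    omega
  have hw : ∀ s ∈ τ, X.wt s ≤ 2 * X.sz u := fun s hs =>
    (single_le_sum (f := X.wt) (fun _ _ => Nat.zero_le _) hs).trans a1
  have b3 : s0 ∉ τ := fun hs => by
    have := X.own_wt s0 u (X.own_blk u s0 b1)
    have := hw s0 hs
    omega
  have l1 : C.Le ⟨insert s0 (C.D ∪ τ), Function.update A s0 true⟩ :=
    ⟨subset_union_left.trans (subset_insert _ _), fun s hs => by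
      have : s ≠ s0 := fun e => b2 (e ▸ hs)
      simp only [Function.update_of_ne this]
      exact h1 s hs⟩
  have l2 : Cond.Le ⟨τ, A⟩ ⟨insert s0 (C.D ∪ τ), Function.update A s0 true⟩ :=
    ⟨subset_union_right.trans (subset_insert _ _), fun s hs => by
      have : s ≠ s0 := fun e => b3 (e ▸ hs)
      simp only [Function.update_of_ne this]⟩
  refine ⟨_, τ, l1, ?_, Or.inl ⟨s0, b1, mem_insert_self _ _, by simp⟩, ?_, ?_, ?_⟩
  · intro s hs e u' hu'
    rcases mem_insert.1 hs with rfl | hs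
    · rw [X.own_blk u s b1] at hu'
      cases hu'
      exact a2.mono l2
    · rcases mem_union.1 hs with hs | hs
      · exact (hC s hs ((l1.2 s hs).symm.trans e) u' hu').mono l1
      · exact (a3 s hs ((l2.2 s hs).symm.trans e) u' hu').mono l2
  · calc τ.card = ∑ _s ∈ τ, 1 := card_eq_sum_ones τ
      _ ≤ ∑ s ∈ τ, X.wt s := sum_le_sum fun s _ => X.wt_pos s
      _ ≤ _ := a1
  · intro s hs u' hu'
    have := X.own_wt s u' hu'
    have := hw s hs
    omega
  · intro s hs
    rcases mem_insert.1 hs with rfl | hs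
    · exact Or.inr (Or.inr b1)
    · rcases mem_union.1 hs with hs | hs
      · exact Or.inl hs
      · exact Or.inr (Or.inl hs)

lemma decide' {C : Cond S} (hC : X.SoundC C) {u : U} (hu : ¬ X.Dec C u)
    (hz : X.z C u < 2 * X.H (X.sz u)) :
    ∃ C' : Cond S, C.Le C' ∧ X.SoundC C' ∧ X.Dec C' u ∧
      (X.Z C').card + X.z C u ≤ (X.Z C).card + 2 * X.sz u ∧
      ∀ u', ¬ X.Dec C' u' → X.z C' u' ≤ X.z C u' + 2 * X.sz u ∧
        (X.sz u ≤ X.sz u' → X.z C' u' ≤ X.z C u') := by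
  obtain ⟨C', τ, a1, a2, a3, a4, a5, a6⟩ := decide hC hz
  refine ⟨C', a1, a2, a3, ?_, fun u' hu' => ?_⟩
  · have h1 : X.Z C' ⊆ (X.Z C \ (X.blk u ∩ C.D)) ∪ τ := by
      intro s hs
      obtain ⟨b1, b2⟩ := mem_Z.1 hs
      have b3 : s ∉ X.blk u := fun h => b2 u (X.own_blk u s h) a3
      rcases a6 s b1 with h | h | h
      · exact mem_union_left _ (mem_sdiff.2 ⟨mem_Z.2 ⟨h, fun u' e d => b2 u' e (d.mono a1)⟩,
          fun h' => b3 (mem_inter.1 h').1⟩)
      · exact mem_union_right _ h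
      · exact absurd h b3
    have h2 := card_le_card h1
    have h3 := card_union_le (X.Z C \ (X.blk u ∩ C.D)) τ
    have h4 := card_sdiff_add_card_eq_card (blk_sub_Z hu)
    rw [z]
    omega
  · have hb : ∀ s ∈ X.blk u', s ∉ X.blk u := fun s h h' => by
      have e := (X.own_blk u' s h).symm.trans (X.own_blk u s h')
      cases e
      exact hu' a3
    constructor
    · have h1 : X.blk u' ∩ C'.D ⊆ (X.blk u' ∩ C.D) ∪ τ := by
        intro s hs
        obtain ⟨b1, b2⟩ := mem_inter.1 hs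
        rcases a6 s b2 with h | h | h
        · exact mem_union_left _ (mem_inter.2 ⟨b1, h⟩)
        · exact mem_union_right _ h
        · exact absurd h (hb s b1)
      have h2 := card_le_card h1
      have h3 := card_union_le (X.blk u' ∩ C.D) τ
      simp only [z]
      omega
    · intro hle
      refine card_le_card fun s hs => ?_
      obtain ⟨b1, b2⟩ := mem_inter.1 hs
      rcases a6 s b2 with h | h | h
      · exact mem_inter.2 ⟨b1, h⟩
      · exact absurd (a5 s h u' (X.own_blk u' s b1)) (by omega)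
      · exact absurd h (hb s b1)

variable (X) in
/-- good conditions at level `n` -/
structure Good (n : ℕ) (C : Cond S) : Prop where
  sound : X.SoundC C
  low : ∀ u, X.sz u < n → X.Dec C u
  calm : ∀ u, ¬ X.Dec C u → X.z C u < X.H (X.sz u)

lemma settle {n B : ℕ} (h2 : ∀ m m', X.H m ≤ B → n ≤ m' → 2 * m ≤ X.H m') (k : ℕ) :
    ∀ C : Cond S, (X.Z C).card = k → k ≤ B → X.SoundC C → (∀ u, X.sz u < n → X.Dec C u) →
      (∀ u, ¬ X.Dec C u → X.z C u < 2 * X.H (X.sz u)) →
      ∃ C', C.Le C' ∧ X.Good n C' ∧ (X.Z C').card ≤ k := by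
  induction k using Nat.strong_induction_on with
  | _ k ih =>
    intro C hk hB hs hl hf
    by_cases hc : ∃ m, ∃ u, X.sz u = m ∧ ¬ X.Dec C u ∧ X.H (X.sz u) ≤ X.z C u
    swap
    · refine ⟨C, .refl C, ⟨hs, hl, fun u hu => ?_⟩, hk.le⟩
      by_contra h
      exact hc ⟨_, u, rfl, hu, by omega⟩
    classical
    obtain ⟨u, e, hu, hH⟩ := Nat.find_spec hc
    have hmin : ∀ u', X.sz u' < X.sz u → ¬ X.Dec C u' → X.z C u' < X.H (X.sz u') := by
      intro u' h1 h3
      by_contra h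
      exact Nat.find_min hc (e ▸ h1) ⟨u', rfl, h3, by omega⟩
    obtain ⟨C1, a1, a2, -, a4, a5⟩ := decide' hs hu (hf u hu)
    have b1 := X.h1 (X.sz u)
    have b2 : X.z C u ≤ k := hk ▸ card_le_card (blk_sub_Z hu)
    obtain ⟨C2, c1, c2, c3⟩ := ih (X.Z C1).card (by omega) C1 rfl (by omega) a2
      (fun u' h => (hl u' h).mono a1) (fun u' h => by
        have h0 : ¬ X.Dec C u' := fun d => h (d.mono a1)
        obtain ⟨d1, d2⟩ := a5 u' h
        by_cases hle : X.sz u ≤ X.sz u'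
        · exact (d2 hle).trans_lt (hf u' h0)
        · have d3 := hmin u' (by omega) h0
          have d4 := h2 (X.sz u) (X.sz u') (by omega) (by
            by_contra d5
            exact h0 (hl u' (by omega)))
          omega)
    exact ⟨C2, a1.trans c1, c2, by omega⟩

lemma query {n B : ℕ} (h2 : ∀ m m', X.H m ≤ B → n ≤ m' → 2 * m ≤ X.H m') {C : Cond S}
    (hC : X.Good n C) (hB : (X.Z C).card + 1 ≤ B) (s : S) :
    ∃ C', C.Le C' ∧ X.Good n C' ∧ (X.Z C').card ≤ (X.Z C).card + 1 ∧ s ∈ C'.D := by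
  by_cases hs : s ∈ C.D
  · exact ⟨C, .refl C, hC, by omega, hs⟩
  have l1 : C.Le ⟨insert s C.D, Function.update C.A s false⟩ :=
    ⟨subset_insert _ _, fun s' hs' => by
      have : s' ≠ s := fun e => hs (e ▸ hs')
      simp only [Function.update_of_ne this]⟩
  have hZ : (X.Z ⟨insert s C.D, Function.update C.A s false⟩).card ≤ (X.Z C).card + 1 := by
    refine le_trans (card_le_card fun s' hs' => ?_) (card_insert_le s (X.Z C))
    obtain ⟨b1, b2⟩ := mem_Z.1 hs'
    rcases mem_insert.1 b1 with h | h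
    · exact mem_insert.2 (Or.inl h)
    · exact mem_insert_of_mem (mem_Z.2 ⟨h, fun u e d => b2 u e (d.mono l1)⟩)
  obtain ⟨C', a1, a2, a3⟩ := settle h2 _ ⟨insert s C.D, Function.update C.A s false⟩ rfl
    (hZ.trans hB) (by
      intro s' hs' e u hu
      rcases mem_insert.1 hs' with rfl | h
      · simp at e
      · exact (hC.sound s' h ((l1.2 s' h).symm.trans e) u hu).mono l1)
    (fun u h => (hC.low u h).mono l1) (fun u h => by
      have b1 := hC.calm u fun d => h (d.mono l1)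
      have b2 : X.z ⟨insert s C.D, Function.update C.A s false⟩ u ≤ X.z C u + 1 := by
        refine le_trans (card_le_card fun s' hs' => ?_) (card_insert_le s (X.blk u ∩ C.D))
        obtain ⟨c1, c2⟩ := mem_inter.1 hs'
        rcases mem_insert.1 c2 with h | h
        · exact mem_insert.2 (Or.inl h)
        · exact mem_insert_of_mem (mem_inter.2 ⟨c1, h⟩)
      have b3 := X.h1 (X.sz u)
      omega)
  exact ⟨C', l1.trans a1, a2, a3.trans hZ, a1.1 (mem_insert_self _ _)⟩

lemma tree {n B : ℕ} (h2 : ∀ m m', X.H m ≤ B → n ≤ m' → 2 * m ≤ X.H m') (t : DT S) :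
    ∀ C : Cond S, X.Good n C → (X.Z C).card + t.depth ≤ B →
      ∃ C' b, C.Le C' ∧ X.Good n C' ∧ (X.Z C').card ≤ (X.Z C).card + t.depth ∧
        ∀ A, C'.Sat A → t.eval A = b := by
  induction t with
  | leaf b => intro C hC _; exact ⟨C, b, .refl C, hC, by omega, fun _ _ => rfl⟩
  | node s t f iht ihf =>
    intro C hC hB
    simp only [DT.depth] at hB ⊢
    obtain ⟨C1, a1, a2, a3, a4⟩ := query h2 hC (by omega) s
    cases e : C1.A s with
    | true =>
      obtain ⟨C2, b, c1, c2, c3, c4⟩ := iht C1 a2 (by omega)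
      refine ⟨C2, b, a1.trans c1, c2, by omega, fun A hA => ?_⟩
      simp only [DT.eval, (c1.sat hA s a4).trans e, if_true]
      exact c4 A hA
    | false =>
      obtain ⟨C2, b, c1, c2, c3, c4⟩ := ihf C1 a2 (by omega)
      refine ⟨C2, b, a1.trans c1, c2, by omega, fun A hA => ?_⟩
      simp only [DT.eval, (c1.sat hA s a4).trans e, Bool.false_eq_true, if_false]
      exact c4 A hA

lemma trees {V : Type} {n B d : ℕ} (h2 : ∀ m m', X.H m ≤ B → n ≤ m' → 2 * m ≤ X.H m')
    (T : V → DT S) (W : Finset V) : (∀ v ∈ W, (T v).depth ≤ d) →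
    ∀ C : Cond S, X.Good n C → (X.Z C).card + W.card * d ≤ B →
      ∃ C', C.Le C' ∧ X.Good n C' ∧ (X.Z C').card ≤ (X.Z C).card + W.card * d ∧
        ∀ v ∈ W, ∃ b, ∀ A, C'.Sat A → (T v).eval A = b := by
  classical
  induction W using Finset.induction_on with
  | empty => intro _ C hC _; exact ⟨C, .refl C, hC, by omega, by simp⟩
  | insert v W hv ih =>
    intro hd C hC hB
    rw [card_insert_of_notMem hv, Nat.succ_mul] at hB ⊢
    obtain ⟨C1, a1, a2, a3, a4⟩ := ih (fun v' h => hd v' (mem_insert_of_mem h)) C hC (by omega)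
    have := hd v (mem_insert_self _ _)
    obtain ⟨C2, b, c1, c2, c3, c4⟩ := tree h2 (T v) C1 a2 (by omega)
    refine ⟨C2, a1.trans c1, c2, by omega, fun v' hv' => ?_⟩
    rcases mem_insert.1 hv' with rfl | h
    · exact ⟨b, c4⟩
    · obtain ⟨b', hb'⟩ := a4 v' h
      exact ⟨b', fun A hA => hb' A (c1.sat hA)⟩

lemma forced {n : ℕ} (W : Finset U) : (∀ u ∈ W, X.sz u = n) → ∀ C : Cond S, X.Good n C →
    ∃ C', C.Le C' ∧ X.Good n C' ∧ (X.Z C').card ≤ (X.Z C).card + W.card * (2 * n) ∧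
      ∀ u ∈ W, X.Dec C' u := by
  classical
  induction W using Finset.induction_on with
  | empty => intro _ C hC; exact ⟨C, .refl C, hC, by omega, by simp⟩
  | insert u W hu ih =>
    intro hW C hC
    rw [card_insert_of_notMem hu, Nat.succ_mul]
    obtain ⟨C1, a1, a2, a3, a4⟩ := ih (fun v' h => hW v' (mem_insert_of_mem h)) C hC
    by_cases hd : X.Dec C1 u
    · exact ⟨C1, a1, a2, by omega, fun u' h => (mem_insert.1 h).elim (fun e => e ▸ hd) (a4 u')⟩
    have e := hW u (mem_insert_self _ _)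
    obtain ⟨C2, c1, c2, c3, c4, c5⟩ := decide' a2.sound hd (by have := a2.calm u hd; omega)
    refine ⟨C2, a1.trans c1, ⟨c2, fun u' h => (a2.low u' h).mono c1, fun u' h => ?_⟩, by omega,
      fun u' h => (mem_insert.1 h).elim (fun e => e ▸ c3) fun h => (a4 u' h).mono c1⟩
    have h0 : ¬ X.Dec C1 u' := fun d => h (d.mono c1)
    refine ((c5 u' h).2 ?_).trans_lt (a2.calm u' h0)
    by_contra d5
    exact h0 (a2.low u' (by omega))

lemma advice {V Y : Type} {n : ℕ} (W : Finset V) (Ad : Finset Y) (c : V → Y → S)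
    (hinj : ∀ v a v' a', c v a = c v' a' → v = v' ∧ a = a') (hown : ∀ v a, X.own (c v a) = none)
    (b : V → Bool) {C : Cond S} (hC : X.Good n C) (hB : (X.Z C).card < Ad.card) :
    ∃ C', C.Le C' ∧ X.Good n C' ∧ (X.Z C').card ≤ (X.Z C).card + W.card ∧
      ∃ a ∈ Ad, ∀ v ∈ W, ∀ A, C'.Sat A → A (c v a) = b v := by
  classical
  obtain ⟨a, ha, hfree⟩ : ∃ a ∈ Ad, ∀ v, c v a ∉ C.D := by
    by_contra hc
    push Not at hc
    choose g hg using hc
    have := card_le_card_of_injOn (s := Ad.attach) (t := X.Z C) (fun a => c (g a.1 a.2) a.1)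
      (fun a _ => mem_coe.2 (mem_Z.2 ⟨hg a.1 a.2, fun u e => by rw [hown] at e; cases e⟩))
      (fun a _ a' _ e => Subtype.ext (hinj _ _ _ _ e).2)
    rw [card_attach] at this
    omega
  let A' : S → Bool := fun s => if h : ∃ v, c v a = s then b h.choose else C.A s
  have l1 : C.Le ⟨C.D ∪ W.image (fun v => c v a), A'⟩ := by
    refine ⟨subset_union_left, fun s hs => ?_⟩
    have : ¬ ∃ v, c v a = s := fun ⟨v, e⟩ => hfree v (e ▸ hs)
    simp only [A', dif_neg this]
  have hnew : ∀ s ∈ C.D ∪ W.image (fun v => c v a), ∀ u, X.own s = some u → s ∈ C.D := by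
    intro s hs u e
    rcases mem_union.1 hs with h | h
    · exact h
    · obtain ⟨v, -, rfl⟩ := mem_image.1 h
      rw [hown] at e
      cases e
  refine ⟨_, l1, ⟨?_, fun u h => (hC.low u h).mono l1, fun u h => ?_⟩, ?_, a, ha, ?_⟩
  · intro s hs e u hu
    have h := hnew s hs u hu
    exact (hC.sound s h ((l1.2 s h).symm.trans e) u hu).mono l1
  · refine lt_of_le_of_lt (card_le_card fun s hs => ?_) (hC.calm u fun d => h (d.mono l1))
    obtain ⟨c1, c2⟩ := mem_inter.1 hs
    exact mem_inter.2 ⟨c1, hnew s c2 u (X.own_blk u s c1)⟩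
  · refine le_trans (card_le_card (t := X.Z C ∪ W.image (fun v => c v a)) fun s hs => ?_)
      ((card_union_le _ _).trans (Nat.add_le_add_left card_image_le _))
    obtain ⟨b1, b2⟩ := mem_Z.1 hs
    rcases mem_union.1 b1 with h | h
    · exact mem_union_left _ (mem_Z.2 ⟨h, fun u e d => b2 u e (d.mono l1)⟩)
    · exact mem_union_right _ h
  · intro v hv A hA
    rw [hA _ (mem_union_right _ (mem_image_of_mem _ hv))]
    have h : ∃ v', c v' a = c v a := ⟨v, rfl⟩
    simp only [A', dif_pos h]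
    rw [(hinj _ _ _ _ h.choose_spec).1]

lemma budget (n : ℕ) : 8 ^ n + 2 ^ n * (2 * n) + 2 ^ n * 2 ^ n + 2 ^ n ≤ 8 ^ (n + 1) := by
  have h1 : n < 2 ^ n := Nat.lt_two_pow_self
  have h2 : 8 ^ n = 2 ^ n * (2 ^ n * 2 ^ n) := by
    rw [← mul_pow, ← mul_pow]; norm_num
  rw [pow_succ, h2]
  generalize 2 ^ n = x at *
  have h3 : x ≤ x * x := Nat.le_mul_self x
  have h4 : x * (2 * n) ≤ x * (2 * (x * x)) := Nat.mul_le_mul_left _ (by omega)
  have h5 : x * x ≤ x * (x * x) := Nat.mul_le_mul_left _ h3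
  nlinarith

theorem core {V Y : Type} (X : Sys S U)
    (h2 : ∀ n m m', X.H m ≤ 8 ^ (n + 1) → n ≤ m' → 2 * m ≤ X.H m')
    (Un : ℕ → Finset U) (hU : ∀ n u, u ∈ Un n ↔ X.sz u = n) (hUc : ∀ n, (Un n).card ≤ 2 ^ n)
    (Vn : ℕ → Finset V) (hVc : ∀ n, (Vn n).card ≤ 2 ^ n) (T : V → DT S)
    (hT : ∀ n, ∀ v ∈ Vn n, (T v).depth ≤ 2 ^ n) (Ad : ℕ → Finset Y)
    (hAd : ∀ n, 8 ^ (n + 1) < (Ad n).card) (c : V → Y → S)
    (hinj : ∀ v a v' a', c v a = c v' a' → v = v' ∧ a = a') (hown : ∀ v a, X.own (c v a) = none) :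
    ∃ A : S → Bool, X.Sound A ∧ (∀ u, X.N u A → ∃ s ∈ X.blk u, A s = true) ∧
      ∀ n, ∃ a ∈ Ad n, ∀ v ∈ Vn n, A (c v a) = (T v).eval A := by
  classical
  have step : ∀ n (C : Cond S), ∃ C', X.Good n C → (X.Z C).card ≤ 8 ^ n →
      C.Le C' ∧ X.Good (n + 1) C' ∧ (X.Z C').card ≤ 8 ^ (n + 1) ∧
        ∃ a ∈ Ad n, ∀ v ∈ Vn n, ∀ A, C'.Sat A → A (c v a) = (T v).eval A := by
    intro n C
    by_cases h : X.Good n C ∧ (X.Z C).card ≤ 8 ^ n
    swap
    · exact ⟨C, fun a b => absurd ⟨a, b⟩ h⟩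
    obtain ⟨hC, hB⟩ := h
    have hb := budget n
    have e1 := Nat.mul_le_mul_right (2 * n) (hUc n)
    have e2 := Nat.mul_le_mul_right (2 ^ n) (hVc n)
    have e3 := hVc n
    have e4 := hAd n
    obtain ⟨C1, a1, a2, a3, a4⟩ := forced (Un n) (fun u h => (hU n u).1 h) C hC
    obtain ⟨C2, b1, b2, b3, b4⟩ := trees (h2 n) T (Vn n) (hT n) C1 a2 (by omega)
    choose! bit hbit using b4
    obtain ⟨C3, c1, c2, c3, a, ha, c4⟩ := advice (Vn n) (Ad n) c hinj hown bit b2 (by omega)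
    refine ⟨C3, fun _ _ => ⟨a1.trans (b1.trans c1), ⟨c2.sound, fun u h => ?_, c2.calm⟩, by omega,
      a, ha, fun v hv A hA => (c4 v hv A hA).trans (hbit v hv A (c1.sat hA)).symm⟩⟩
    rcases Nat.lt_succ_iff_lt_or_eq.1 h with h | h
    · exact c2.low u h
    · exact (a4 u ((hU n u).2 h)).mono (b1.trans c1)
  choose nx hnx using step
  let C : ℕ → Cond S := fun n => Nat.rec ⟨∅, fun _ => false⟩ nx n
  have hG : ∀ n, X.Good n (C n) ∧ (X.Z (C n)).card ≤ 8 ^ n := by
    intro n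
    induction n with
    | zero =>
      refine ⟨⟨fun s hs => absurd hs (notMem_empty s), fun u h => by omega, fun u _ => ?_⟩, ?_⟩
      · have := X.h1 (X.sz u)
        have e : X.z (C 0) u = 0 := by simp [z, C]
        omega
      · have : X.Z (C 0) = ∅ := eq_empty_of_forall_notMem fun s hs => notMem_empty s (mem_Z.1 hs).1
        simp [this]
    | succ n ih => exact ⟨(hnx n _ ih.1 ih.2).2.1, (hnx n _ ih.1 ih.2).2.2.1⟩
  have hle : ∀ n m, n ≤ m → (C n).Le (C m) := by
    intro n m h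
    induction m, h using Nat.le_induction with
    | base => exact .refl _
    | succ m _ ih => exact ih.trans (hnx m _ (hG m).1 (hG m).2).1
  let A : S → Bool := fun s => Decidable.decide (∃ n, s ∈ (C n).D ∧ (C n).A s = true)
  have hA : ∀ n, (C n).Sat A := by
    intro n s hs
    cases e : (C n).A s with
    | true => exact decide_eq_true ⟨n, hs, e⟩
    | false =>
      refine decide_eq_false fun ⟨m, h1, h3⟩ => ?_
      rcases le_total n m with h | h
      · rw [(hle n m h).2 s hs, e] at h3; cases h3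
      · rw [(hle m n h).2 s h1, h3] at e; cases e
  have hS : X.Sound A := by
    intro s u h1 h3
    obtain ⟨n, a, b⟩ := of_decide_eq_true h1
    exact (hG n).1.sound s a b u h3 A (hA n)
  refine ⟨A, hS, fun u hu => ?_, fun n => ?_⟩
  · rcases (hG (X.sz u + 1)).1.low u (by omega) with ⟨s, a, b, e⟩ | h
    · exact ⟨s, a, (hA (X.sz u + 1) s b).trans e⟩
    · exact absurd hu (h A (hA (X.sz u + 1)) hS)
  · obtain ⟨a, ha, h⟩ := (hnx n _ (hG n).1 (hG n).2).2.2.2
    exact ⟨a, ha, fun v hv => h v hv A (hA (n + 1))⟩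

end Sys

end Pool.Agent.MP_d3ab35_lc.H50
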