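import Mathlib
import Pool.Prelude.Def_H_3587d628

/-!
Complexity classes relative to an oracle.
-/

set_option autoImplicit false

namespace Pool.Agent.MP_d3ab35_lc.H50

open N68a2faeb

/-- Run of an oracle computation with at most `t` rounds. From the list of the answers received so
far (latest first) the strategy `q` returns `(true, s)`, asking the oracle about the string `s`, or
`(false, s)`, halting with the first bit of `s` as output. -/
def run (O : List Bool → Bool) (q : List Bool → Bool × List Bool) : ℕ → List Bool → Bool
  | 0, _ => false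
  | t + 1, ans => if (q ans).1 then run O q t (O (q ans).2 :: ans) else (q ans).2.headD false

/-- `R` is decidable in polynomial time with the oracle `O`: a polynomial time strategy runs for
polynomially many rounds. -/
def PO {α : Type} [N487b59b3 α] (O : List Bool → Bool) (R : α → Bool) : Prop :=
  ∃ (p : Polynomial ℕ) (q : α × List Bool → Bool × List Bool), IsPolyTime q ∧
    ∀ a, R a = run O (fun ans => q (a, ans)) (p.eval (N487b59b3.bitEncode a).length) []

/-- `NP` relative to `O`. -/
def NPO (O : List Bool → Bool) : Set (List Bool → Bool) :=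
  {L | ∃ (p : Polynomial ℕ) (R : List Bool × List Bool → Bool), PO O R ∧
    ∀ x, L x = true ↔ ∃ y : List Bool, y.length ≤ p.eval x.length ∧ R (x, y) = true}

/-- The class `β_f` relative to `O`. -/
def Beta (O : List Bool → Bool) (f : ℕ → ℕ) : Set (List Bool → Bool) :=
  {L | ∃ (c : ℕ) (R : List Bool × List Bool → Bool), PO O R ∧
    ∀ x, L x = true ↔ ∃ y : List Bool, y.length ≤ c * f x.length ∧ R (x, y) = true}

/-- `EXP` relative to `O`: polynomial time in the input padded by `2 ^ n ^ k` symbols. -/
def EXPO (O : List Bool → Bool) : Set (List Bool → Bool) :=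
  {L | ∃ (k : ℕ) (R : List Bool × List Bool → Bool), PO O R ∧
    ∀ x, L x = R (x, List.replicate (2 ^ x.length ^ k) true)}

/-- `P/poly` relative to `O`: polynomial time with polynomial advice. -/
def PPolyO (O : List Bool → Bool) : Set (List Bool → Bool) :=
  {L | ∃ (p : Polynomial ℕ) (adv : ℕ → List Bool) (R : List Bool × List Bool → Bool), PO O R ∧
    (∀ n, (adv n).length ≤ p.eval n) ∧ ∀ x, L x = R (x, adv x.length)}

/-- Subpolynomial functions. -/
def Subpoly (f : ℕ → ℕ) : Prop :=
  ∀ ε : ℝ, 0 < ε → ∀ᶠ n : ℕ in Filter.atTop, (f n : ℝ) ≤ (n : ℝ) ^ ε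

/-- Sparse sets. -/
def Sparse (S : List Bool → Bool) : Prop :=
  ∃ p : Polynomial ℕ, ∀ n, {x : List Bool | x.length ≤ n ∧ S x = true}.encard ≤ (p.eval n : ℕ)

/-- The join of two oracles: the first bit of a query selects the oracle. -/
def join (O S : List Bool → Bool) : List Bool → Bool
  | [] => false
  | false :: s => O s
  | true :: s => S s

end Pool.Agent.MP_d3ab35_lc.H50
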